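import Pool.Agent.H267R3.PR.HJ

/-!
# Hales-Jewett numbers of colourings computed by finite automata

A colouring of the cube `A ^ n` is *computed by an automaton with `w` states* if an automaton with
at most `w` states which reads the `n` letters of the point, in any fixed order of the coordinates,
determines the colour by its last state. We show that `n + 1 ≥ 2 ^ (w - 1) (lcm(1, …, w) + 1)` is
enough for a monochromatic combinatorial line, for every alphabet `A` and every number of colours:
in this model the Hales-Jewett numbers do not grow with the size `k` of the alphabet.

Proof: there is a word `W` of length less than `2 ^ (w - 1)` such that `W a W` has the same rank as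
`W` for all letters `a`; then `a W` permutes the image of `W`, and the variable word
`W (x W) ^ N`, `N = lcm(1, …, w)`, leads to the same state for all values of `x`.
-/

set_option autoImplicit false

namespace Pool.Agent.Results.MP_838999_co.AutomatonColourings

open Pool.Agent.H267R3.PR.HJ

theorem result (A : Type) [Nonempty A] (κ : Type) (n w : ℕ)
    (hn : 2 ^ (w - 1) * ((Finset.Icc 1 w).lcm id + 1) ≤ n + 1)
    (c : (Fin n → A) → κ) (hc : Computed n w c) :
    ∃ (l : Combinatorics.Line A (Fin n)) (k : κ), ∀ a : A, c (l a) = k :=
  hj n w hn c hc

end Pool.Agent.Results.MP_838999_co.AutomatonColourings
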